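import Pool.Agent.R887.TrvH

/-!
Pairs which receive finite multi-valued maps: `K_X + Δ` is numerically trivial or not
pseudo-effective.
-/

set_option autoImplicit false

open FF Pool.Agent.W602.GT Pool.Agent.Y172 Pool.Agent.R887

/-- Let `X` be a normal complex projective variety of dimension `n ≥ 1`, with generic point `y`, and
`Δ` a divisor on `X`, for instance such that `(X, Δ)` is log canonical. Suppose that for all `ε > 0`
there are a pair `(X', Δ')` of dimension `n` (a normal projective variety and an `ℝ`-divisor), with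
hyperplane section `H'`, such that `τ H' - (K_X' + Δ')` is pseudo-effective, and a multi-valued map
`X' ← X'' → X`, where the projection `p` to `X'` is generically finite and `f : X'' ⇢ X` is dominant,
such that the prime divisors over `X''` which `f` maps to prime divisors of `X` are mapped to prime
divisors of `X'` by `p`, with `f^* (K_X + Δ) ≤ p^* (K_X' + Δ')` along them (this is the condition on
the ramification indices), and such that the intersection number of `n - 1` pull backs by `f` of
hyperplane sections of `X` and one pull back by `p` of a hyperplane section of `X'` is at most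
`c deg f`, where `c τ ≤ ε`.

Then `-(K_X + Δ)` is pseudo-effective. Thus, if `K_X + Δ` is pseudo-effective, it is numerically
trivial, and `X` is its own log minimal model.

The first part says that every pair `(X', Δ')` has a finite threshold `τ`. In particular the second
part applies to all `(X, Δ)` which receive such maps with `c → 0` from one pair `(X', Δ')`. -/
theorem Pool.Agent.Results.MP_a27c81_ag.AnticanonicalThresholds.result :
    (∀ {K' : Type} [Field K'] [Algebra ℂ K'] {N' n : ℕ} {y' : Fin (N' + 1) → K'},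
      NormalModel y' → Algebra.trdeg ℂ K' = n → ∀ {Δ' : Place ℂ K' → ℝ},
      {P | IsPrimeDivisor y' P ∧ Δ' P ≠ 0}.Finite → ∃ τ : ℝ, 0 ≤ τ ∧ ThresholdLe y' n Δ' τ) ∧
    ∀ {K : Type} [Field K] [Algebra ℂ K] {N n : ℕ} {y : Fin (N + 1) → K}, NormalModel y →
      Algebra.trdeg ℂ K = n → 0 < n → ∀ {Δ : Place ℂ K → ℝ},
      (∀ ε : ℝ, 0 < ε → ∃ (K' L : Type) (_ : Field K') (_ : Algebra ℂ K') (_ : Field L)
        (_ : Algebra ℂ L) (N' : ℕ) (y' : Fin (N' + 1) → K') (Δ' : Place ℂ K' → ℝ)
        (φ : K →ₐ[ℂ] L) (ψ : K' →ₐ[ℂ] L) (c τ : ℝ), NormalModel y' ∧ Algebra.trdeg ℂ K' = n ∧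
        0 ≤ τ ∧ ThresholdLe y' n Δ' τ ∧ FiniteDimensional ψ.fieldRange L ∧
        FiniteLogPullBackLe φ ψ y Δ y' Δ' ∧ MultiDegreeLe φ ψ y y' (n - 1) 1 c ∧ c * τ ≤ ε) →
      AntiPseudoEffectiveR y n Δ ∧ (PseudoEffectiveR y n Δ → NumTrivialR y n Δ) := by
  refine ⟨fun hy' hn' Δ' hΔ' => exists_threshold hy' hn' hΔ',
    fun {K} _ _ {N n y} hy hn hn0 {Δ} h => ?_⟩
  have h1 : AntiPseudoEffectiveR y n Δ := by
    refine thresholdLe_zero (thresholdLe_of_forall fun ε hε => ?_)
    obtain ⟨K', L, _, _, _, _, N', y', Δ', φ, ψ, c, τ, hy', hn', hτ0, hτ, hψ, hlog, hc, hcτ⟩ :=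
      h ε hε
    refine (threshold_le hy hn hn0 hy' hn' φ ψ hψ hlog hc hτ0 hτ).2.mono ?_
    linarith
  exact ⟨h1, fun h2 => ⟨h2, h1⟩⟩
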