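import Pool.Agent.Results.MP_97d78d_ag.CurveFibrations

/-!
# The minimal model program for images of hypersurfaces fibred by curves of arbitrary genus

Let `V` be a component of the hypersurface `f = 0` in the torus with the coordinates
`t 1, ..., t n, x, y`, where the Laurent polynomial `f` is nondegenerate in the sense of Khovanskii.
Suppose that `x` and `y` appear in `f` only with exponents `(i, j)` in the trapezoid `T` given by
`0 ≤ j ≤ b`, `0 ≤ i ≤ a + s (b - j)`; the Newton polytope of `f` is arbitrary otherwise. Suppose that
`t 1, ..., t n, x` are algebraically independent on `V`, and that the generic fibres of the map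
`V ⇢ V' = (ℙ ^ 1) ^ n` given by `t` are irreducible. These fibres are curves on a rational ruled
surface (or plane curves: `a = 0`, `s = 1`); they may have any genus. Suppose that for all lattice
points `(i, j)` in the interior of `T` there is a vector `u i j` over `(i, j)` such that `u i j` and
the `u i j + M e l`, where `e 1, ..., e n` are the unit vectors of the coordinates `t`, are in the
Fine interior of the Newton polytope of `f`. For example, `V` may be a general hypersurface of
multidegree `(e 1, ..., e n, a, b)` in `(ℙ ^ 1) ^ (n + 2)` with `e l ≥ M + 2`, or of multidegree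
`(e 1, ..., e n, b)` in `(ℙ ^ 1) ^ n × ℙ ^ 2`.

Let `V ⇢ W` be a dominant rational map of finite degree `r`. The map is arbitrary; it is not assumed
to be related to the fibration. Let `W'` be the image of `V` in `W × V'`, and let `m ≤ r` be the
degree of `W' → W`.

* If `m ≤ M + 1` then `p_g(W) = 0` if and only if `κ(W) = -∞`, if and only if `K_W` is not
  pseudo-effective, if and only if `W` is uniruled.
* If `2 m ≤ M + 1` then `W` is uniruled or `κ(W) ≥ n = dim W - 1`.

So, if `2 m ≤ M + 1` and `X` is a smooth projective variety birational to `W`: if `K_X` is pseudo-effective then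
`κ(X) ≥ dim X - 1`, the fibres of the Iitaka fibration are elliptic curves or points, and `X` has a good
minimal model, which is reached by the minimal model program with scaling (Lai); if `K_X` is not
pseudo-effective then a Mori fibre space is reached (Birkar, Cascini, Hacon, McKernan). These steps are
not formalised here.

This is the theorem of `MP_97d78d_ag.CurveFibrations` of this team, which is about another question.

Proof. Let `Ω i j = x ^ (u i j) Res` be the canonical forms on `V` given by the residue, for the
`(i, j)` in the interior of `T`. Their restrictions to the geometric generic fibre `C` of `V ⇢ V'`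
are the `x ^ i y ^ j dx / (x y F_y)`, up to constants, where `F` is the equation of `C`. They generate
the regular differentials of `C`: the formula of Euler gives `h = ∑ j, Tr (h γ j / F_y) y ^ j`, where
`∑ j, γ j Y ^ j = F(Y) / (Y - y)`; this is also true if `F` is reducible. If `h dx / F_y` is regular
then the poles of the differentials `Tr (h γ j / F_y) dx` on the line are bounded by those of the
`γ j`, which can be estimated from both ends of the polynomial `F(Y)`. Let `C'` be the image of `C` in
the geometric generic fibre of `W' → V'`. If all the `Ω i j` have trace zero on `W'` then all regular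
differentials of `C` have trace zero on `C'` (the fibres of `V ⇢ V'` are irreducible), so `C'` is
rational, and `W'` and `W` are uniruled. If the trace of some `Ω i j` is not zero then the traces on
`W` of the forms `A(t) Ω i j`, where `A` is a polynomial of degree at most `M`, show that
`p_g(W) > 0` and `κ(W) ≥ n`, as in `MP_5ff3c6_ag.ImagesOfIntersections` of this team.
-/

set_option autoImplicit false
set_option linter.overlappingInstances false

open FF Module Pool.Agent Pool.Agent.W602.GT Pool.Agent.R885
open Pool.Agent.W619.PQ (IsUniruled)
open Pool.Agent.Results.MP_97d78d_ag.CurveFibrations (Nondegenerate InFine InTrapezoid Interior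
  GenusZero)

namespace Pool.Agent.Results.MP_a27c81_ag.CurveFibrations

/-- **Images of fibrations by curves.** -/
theorem result {n a s b M : ℕ} (hM : 1 ≤ M) {f : (Fin (n + 2) → ℤ) →₀ ℂ}
    (hf : Nondegenerate f) (hT : InTrapezoid f a s b) {K : Type} [Field K] [Algebra ℂ K]
    {z : Fin (n + 2) → K} (hz : ∀ i, z i ≠ 0) (hfz : ev z f = 0)
    (hgen : IntermediateField.adjoin ℂ (Set.range z) = ⊤) (hK : Algebra.trdeg ℂ K = (n + 1 : ℕ))
    (hind : AlgebraicIndependent ℂ fun i : Fin (n + 1) => z i.castSucc)
    {t : Fin n → K} (ht : ∀ l, t l = z l.castSucc.castSucc)
    (hcl : ∀ g : K, IsAlgebraic (IntermediateField.adjoin ℂ (Set.range t)) g →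
      g ∈ IntermediateField.adjoin ℂ (Set.range t))
    {u : ℕ → ℕ → Fin (n + 2) → ℤ}
    (hu : ∀ i j, Interior a s b i j → u i j (Fin.last n).castSucc = i ∧
      u i j (Fin.last (n + 1)) = j ∧ InFine f (u i j) ∧
      ∀ l : Fin n, InFine f (u i j + (M : ℤ) • Pi.single l.castSucc.castSucc 1))
    (L : Type) [Field L] [Algebra ℂ L] [Algebra L K] [IsScalarTower ℂ L K]
    [FiniteDimensional L K] :
    (Module.finrank L (IntermediateField.adjoin L (Set.range t)) ≤ M + 1 →
      [GenusZero L (n + 1), ¬ KodGe ℂ L (n + 1) (fun _ => False) 0,
        ¬ Psef ℂ L (n + 1) (fun _ => False), IsUniruled ℂ L (n + 1)].TFAE) ∧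
    (2 * Module.finrank L (IntermediateField.adjoin L (Set.range t)) ≤ M + 1 →
      IsUniruled ℂ L (n + 1) ∨ KodGe ℂ L (n + 1) (fun _ => False) n) :=
  Pool.Agent.Results.MP_97d78d_ag.CurveFibrations.result hM hf hT hz hfz hgen hK hind ht hcl hu L

end Pool.Agent.Results.MP_a27c81_ag.CurveFibrations
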